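import Pool.Agent.helper88.GR.Spec
import Pool.Agent.helper27.MP.TB

/-!
# TSP: the transfer of a simple pole (project gr:)
-/

set_option autoImplicit false

open Complex Metric Set Filter Topology MeasureTheory
open MPS (om)
open PPS (pre TT fd)
open XPS (Df er dens tau)

noncomputable section

namespace GR

theorem TSP_fd (n : ℕ) (c w : ℂ) : fd (fp n c) w = MPS.fd n w := by
  show Polynomial.eval w (Polynomial.derivative (fp n c)) = MPS.fd n w
  unfold fp MPS.fd
  rw [Polynomial.derivative_add, Polynomial.derivative_X_pow, Polynomial.derivative_C]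
  simp

/-- TSP: the transfer of a simple pole. -/
theorem TSP (hPREL : PREL_stmt) : TSP_stmt := by
  intro n c a z hn ha hzc hza
  have hn0 : n ≠ 0 := by omega
  have hnC : (n : ℂ) ≠ 0 := Nat.cast_ne_zero.mpr hn0
  obtain ⟨y, hy⟩ : ∃ y : ℂ, y ^ n = z - c := IsAlgClosed.exists_pow_nat_eq (z - c) (by omega)
  have hz : z = y ^ n + c := by rw [hy]; ring
  have hyn : y ^ n ≠ 0 := by rw [hy]; exact sub_ne_zero.mpr hzc
  have hy0 : y ≠ 0 := by
    rintro rfl
    exact hyn (zero_pow hn0)
  have hya : y ^ n ≠ a ^ n := by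
    intro h
    exact hza (by rw [hz, h])
  have h1 : TT (fp n c) (fun w => 1 / (w - a)) z =
      ∑ k ∈ Finset.range n, (1 / (om n ^ k * y - a)) * (1 / MPS.fd n (om n ^ k * y) ^ 2) := by
    show (Multiset.map (fun x => 1 / (x - a) / fd (fp n c) x ^ 2) (pre (fp n c) z)).sum = _
    rw [hz, hPREL n c y hn hy0, Multiset.map_map]
    show _ = (Multiset.map _ (Multiset.range n)).sum
    congr 1
    apply Multiset.map_congr rfl
    intro k _
    simp only [Function.comp]
    rw [TSP_fd]
    ring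
  rw [h1, MPS.TB_S1 n hn y a hy0 hya, hz]
  have hsub : y ^ n - a ^ n ≠ 0 := sub_ne_zero.mpr hya
  have e1 : y ^ n + c - (a ^ n + c) = y ^ n - a ^ n := by ring
  have e2 : y ^ n + c - c = y ^ n := by ring
  have e3 : a ^ (n - 1) * a = a ^ n := by rw [← pow_succ, show n - 1 + 1 = n by omega]
  have ha1 : a ^ (n - 1) ≠ 0 := pow_ne_zero _ ha
  rw [e1, e2, ← e3]
  rw [← e3] at hsub
  generalize a ^ (n - 1) = b at *
  generalize y ^ n = Y at *
  rw [div_sub_div _ _ hsub hyn, div_mul_div_comm, div_eq_div_iff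
    (mul_ne_zero (mul_ne_zero hnC hyn) hsub)
    (mul_ne_zero (mul_ne_zero hnC ha1) (mul_ne_zero hsub hyn))]
  ring

end GR
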